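import Pool.Agent.H487.GP.Stm
import Pool.Agent.H487.GA.Fin2

set_option autoImplicit false

/-!
Project GP, GDP: almost all heights are good.
-/

open Finset Complex Filter Topology Metric Set MeasureTheory

namespace Pool.Agent.H664.GP

open Pool.Agent.Helper242.KK (FT Ph)
open Pool.Agent.H477.Jen
open Pool.Agent.H477.E
open Pool.Agent.H487.GA
open Pool.Agent.H487.GP

/-- moving the point of evaluation vertically -/
theorem vert {f : ℂ → ℂ} (hf : Differentiable ℂ f) {x r r' lam M e : ℝ} (W : ℂ) (hW : ‖W‖ = 1)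
    (h1 : r' ≤ r) (hM : 0 ≤ M) (he : M * (r - r') ≤ e) (he1 : e ≤ 1 / 8) (he0 : 0 ≤ e)
    (hz : ∀ s : ℝ, r' ≤ s → s ≤ r → f ((x : ℂ) - I * s) ≠ 0 ∧
      ‖deriv f ((x : ℂ) - I * s) / f ((x : ℂ) - I * s) - I * (lam : ℂ)‖ ≤ M)
    (h : |(W * f ((x : ℂ) - I * r')).re| ≤ e * ‖f ((x : ℂ) - I * r')‖) :
    |(W * f ((x : ℂ) - I * r)).re| ≤ 4 * e * ‖f ((x : ℂ) - I * r)‖ := by
  obtain ⟨g, hg⟩ : ∃ g : ℝ → ℂ, g = fun s : ℝ => f ((x : ℂ) - I * s) * ((Real.exp (-(lam * s)) : ℝ) : ℂ) := ⟨_, rfl⟩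
  obtain ⟨g', hg'⟩ : ∃ g' : ℝ → ℂ, g' = fun s : ℝ => -I * (deriv f ((x : ℂ) - I * s) / f ((x : ℂ) - I * s) - I * (lam : ℂ)) * g s := ⟨_, rfl⟩
  have hd : ∀ s ∈ Icc r' r, HasDerivAt g (g' s) s := by
    intro s hs
    obtain ⟨h2, _⟩ := hz s hs.1 hs.2
    have d1 : HasDerivAt (fun s : ℝ => (x : ℂ) - I * s) (-I) s := by
      have := ((hasDerivAt_id s).ofReal_comp.const_mul I).const_sub (x : ℂ)
      simpa using this
    have d2 : HasDerivAt (fun s : ℝ => f ((x : ℂ) - I * s)) (deriv f ((x : ℂ) - I * s) * -I) s :=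
      HasDerivAt.comp_of_eq s (hf _).hasDerivAt d1 rfl
    have d3 : HasDerivAt (fun s : ℝ => ((Real.exp (-(lam * s)) : ℝ) : ℂ)) ((Real.exp (-(lam * s)) * -lam : ℝ) : ℂ) s := by
      have h3 : HasDerivAt (fun s : ℝ => -(lam * s)) (-lam) s := by
        have h4 := (hasDerivAt_id s).const_mul (-lam)
        simp only [id_eq, neg_mul, mul_one] at h4
        exact h4
      exact h3.exp.ofReal_comp
    have d4 := d2.mul d3
    rw [hg', hg]
    refine d4.congr_deriv ?_
    simp only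
    have e1 : -I * (deriv f ((x : ℂ) - I * s) / f ((x : ℂ) - I * s) - I * (lam : ℂ)) *
        (f ((x : ℂ) - I * s) * ((Real.exp (-(lam * s)) : ℝ) : ℂ)) =
        (-I * (deriv f ((x : ℂ) - I * s) / f ((x : ℂ) - I * s) * f ((x : ℂ) - I * s)) + I * I * (lam : ℂ) * f ((x : ℂ) - I * s)) *
          ((Real.exp (-(lam * s)) : ℝ) : ℂ) := by ring
    rw [e1, div_mul_cancel₀ _ h2, I_mul_I]
    push_cast
    ring
  have hb : ∀ s ∈ Icc r' r, ‖g' s‖ ≤ M * ‖g s‖ := by
    intro s hs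
    rw [hg']
    simp only
    rw [norm_mul, norm_mul, norm_neg, norm_I, one_mul]
    exact mul_le_mul_of_nonneg_right (hz s hs.1 hs.2).2 (norm_nonneg _)
  have hc : ContinuousOn (fun s => ‖g s‖) (Icc r' r) := fun s hs =>
    (hd s hs).continuousAt.norm.continuousWithinAt
  have hl : r' ∈ Icc r' r := ⟨le_rfl, h1⟩
  have hr : r ∈ Icc r' r := ⟨h1, le_rfl⟩
  obtain ⟨s0, hs0, hmax⟩ := isCompact_Icc.exists_isMaxOn ⟨r, hr⟩ hc
  have hmax' : ∀ s ∈ Icc r' r, ‖g s‖ ≤ ‖g s0‖ := fun s hs => hmax hs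
  have hdiff : ∀ a ∈ Icc r' r, ‖g a - g r‖ ≤ e * ‖g s0‖ := by
    intro a ha
    have h3 := Convex.norm_image_sub_le_of_norm_hasDerivWithin_le (f := g) (f' := g') (C := M * ‖g s0‖)
      (s := Icc r' r) (x := r) (y := a) (fun s hs => (hd s hs).hasDerivWithinAt)
      (fun s hs => (hb s hs).trans (mul_le_mul_of_nonneg_left (hmax' s hs) hM)) (convex_Icc _ _) hr ha
    refine h3.trans ?_
    have h4 : ‖a - r‖ ≤ r - r' := by
      rw [Real.norm_eq_abs, abs_sub_comm, abs_of_nonneg (by linarith [ha.2])]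
      linarith [ha.1]
    calc M * ‖g s0‖ * ‖a - r‖ ≤ M * ‖g s0‖ * (r - r') := mul_le_mul_of_nonneg_left h4 (by positivity)
      _ = M * (r - r') * ‖g s0‖ := by ring
      _ ≤ e * ‖g s0‖ := mul_le_mul_of_nonneg_right he (norm_nonneg _)
  have hm : ‖g s0‖ ≤ 8 / 7 * ‖g r‖ := by
    have h3 := hdiff s0 hs0
    have h4 : ‖g s0‖ ≤ ‖g s0 - g r‖ + ‖g r‖ := by
      calc ‖g s0‖ = ‖(g s0 - g r) + g r‖ := by rw [sub_add_cancel]
        _ ≤ _ := norm_add_le _ _
    have h5 : e * ‖g s0‖ ≤ 1 / 8 * ‖g s0‖ := mul_le_mul_of_nonneg_right he1 (norm_nonneg _)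
    linarith
  have hE : ∀ s : ℝ, (W * g s).re = Real.exp (-(lam * s)) * (W * f ((x : ℂ) - I * s)).re := by
    intro s
    rw [hg]
    simp only
    rw [← mul_assoc, mul_comm, re_ofReal_mul]
  have hN : ∀ s : ℝ, ‖g s‖ = Real.exp (-(lam * s)) * ‖f ((x : ℂ) - I * s)‖ := by
    intro s
    rw [hg]
    simp only
    rw [norm_mul, Complex.norm_real, Real.norm_eq_abs, abs_of_pos (Real.exp_pos _), mul_comm]
  have k1 : |(W * g r').re| ≤ e * ‖g r'‖ := by
    rw [hE, hN, abs_mul, abs_of_pos (Real.exp_pos _)]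
    calc Real.exp (-(lam * r')) * |(W * f ((x : ℂ) - I * r')).re|
        ≤ Real.exp (-(lam * r')) * (e * ‖f ((x : ℂ) - I * r')‖) := mul_le_mul_of_nonneg_left h (Real.exp_pos _).le
      _ = _ := by ring
  have k2 : |(W * g r).re| ≤ 4 * e * ‖g r‖ := by
    have h3 : (W * g r).re = (W * g r').re - (W * (g r' - g r)).re := by
      rw [← Complex.sub_re]
      congr 1
      ring
    have h4 : |(W * (g r' - g r)).re| ≤ e * ‖g s0‖ := by
      refine (Complex.abs_re_le_norm _).trans ?_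
      rw [norm_mul, hW, one_mul]
      exact hdiff r' hl
    have h5 : e * ‖g s0‖ ≤ e * (8 / 7 * ‖g r‖) := mul_le_mul_of_nonneg_left hm he0
    have h6 : e * ‖g r'‖ ≤ e * ‖g s0‖ := mul_le_mul_of_nonneg_left (hmax' r' hl) he0
    have h7 : 0 ≤ e * ‖g r‖ := by positivity
    rw [h3]
    refine (abs_sub _ _).trans ?_
    linarith
  rw [hE, hN, abs_mul, abs_of_pos (Real.exp_pos _)] at k2
  have k3 : Real.exp (-(lam * r)) * |(W * f ((x : ℂ) - I * r)).re| ≤ Real.exp (-(lam * r)) * (4 * e * ‖f ((x : ℂ) - I * r)‖) := by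
    linarith
  exact le_of_mul_le_mul_left k3 (Real.exp_pos _)

theorem mu {A B : Set ℝ} {a b : ℝ} (ha : 0 ≤ a) (hb : 0 ≤ b) (h1 : volume A ≤ ENNReal.ofReal a)
    (h2 : volume B ≤ ENNReal.ofReal b) : volume (A ∪ B) ≤ ENNReal.ofReal (a + b) := by
  rw [ENNReal.ofReal_add ha hb]
  exact (measure_union_le _ _).trans (add_le_add h1 h2)

theorem wk_norm (k : ℕ) : ‖wk k‖ = 1 := by
  unfold wk
  split_ifs <;> simp

/-- **GDP** -/
theorem gdp_proof : S_GDX → S_LGV → S_RE → S_CZ → S_XXA → Pool.Agent.H487.ED.S_SPC → S_GDP := by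
  intro hGDX hLGV hRE _ hXXA hSPC v ε hv hε hε1
  obtain ⟨N, hN⟩ : ∃ N : ℕ, v + 3 ≤ N := exists_nat_ge _
  have hN0 : (0 : ℝ) < N := by linarith
  obtain ⟨e0, he0, he0N⟩ : ∃ e0 : ℝ, 0 < e0 ∧ (N + 2) * e0 ≤ ε / 16 := by
    refine ⟨ε / (16 * (N + 2)), by positivity, le_of_eq ?_⟩
    field_simp
  obtain ⟨J, K, δ1, T1, hJ, hK, hδ1, hT1, hgd⟩ := hGDX e0 he0
  obtain ⟨η1, hη1, hη11, k1, hre⟩ := hRE (J + 1) (ε / 8) (by positivity) (by positivity)
  obtain ⟨η2, hη2, hη21, k2, hsp⟩ := hSPC ε hε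
  obtain ⟨c, hc, k3, T3, hlg⟩ := hLGV (min η1 η2) (lt_min hη1 hη2) ((min_le_left _ _).trans hη11)
  obtain ⟨k4, hk4⟩ : ∃ k4 : ℕ, ∀ k : ℕ, k4 ≤ k → Real.exp (-c * k) ≤ ε / 16 := by
    have h1 : Tendsto (fun k : ℕ => Real.exp (-c * k)) atTop (𝓝 0) := by
      apply Real.tendsto_exp_atBot.comp
      have h2 : Tendsto (fun k : ℕ => -(c * (k:ℝ))) atTop atBot :=
        tendsto_neg_atTop_atBot.comp (Tendsto.const_mul_atTop hc tendsto_natCast_atTop_atTop)
      exact h2.congr fun k => by ring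
    exact eventually_atTop.1 (h1.eventually_le_const (by positivity))
  obtain ⟨δ5, K5, T5, hδ5, hK5, hT5, hxx⟩ := hXXA v (ε ^ 2 / 16) hv (by positivity)
  obtain ⟨k5, hk5⟩ := exists_nat_ge (max (max K K5) (J / ε))
  -- parameters
  obtain ⟨δ, hδ, d1, d2, d3, d4, d5⟩ : ∃ δ : ℝ, 0 < δ ∧ 4 * δ ≤ δ1 ∧ 4 * δ ≤ δ5 ∧ 4 * δ ≤ 1 / 100 ∧ 600 * δ ≤ 1 ∧ N * (4 * δ) ≤ 1 := by
    refine ⟨min (min (δ1 / 4) (δ5 / 4)) (min (1 / (4 * N)) (1 / 600)), by positivity, ?_, ?_, ?_, ?_, ?_⟩
    · have := (min_le_left (min (δ1 / 4) (δ5 / 4)) (min (1 / (4 * (N:ℝ))) (1 / 600))).trans (min_le_left _ _); linarith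
    · have := (min_le_left (min (δ1 / 4) (δ5 / 4)) (min (1 / (4 * (N:ℝ))) (1 / 600))).trans (min_le_right _ _); linarith
    · have := (min_le_right (min (δ1 / 4) (δ5 / 4)) (min (1 / (4 * (N:ℝ))) (1 / 600))).trans (min_le_right _ _); linarith
    · have := (min_le_right (min (δ1 / 4) (δ5 / 4)) (min (1 / (4 * (N:ℝ))) (1 / 600))).trans (min_le_right _ _); linarith
    · have h1 := (min_le_right (min (δ1 / 4) (δ5 / 4)) (min (1 / (4 * (N:ℝ))) (1 / 600))).trans (min_le_left _ _)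
      have h2 : (N:ℝ) * (4 * (1 / (4 * N))) = 1 := by field_simp
      calc (N:ℝ) * (4 * min (min (δ1 / 4) (δ5 / 4)) (min (1 / (4 * (N:ℝ))) (1 / 600))) ≤ N * (4 * (1 / (4 * N))) := by
            apply mul_le_mul_of_nonneg_left _ hN0.le
            linarith
        _ = 1 := h2
  obtain ⟨T4, hT4⟩ : ∃ T4 : ℝ, ∀ T : ℝ, T4 ≤ T → 600 + 800 * (J + 1) / ε ≤ Real.log T :=
    eventually_atTop.1 (Real.tendsto_log_atTop.eventually_ge_atTop _)
  obtain ⟨T6, hT6⟩ : ∃ T6 : ℝ, ∀ T : ℝ, T6 ≤ T → ‖Real.log T‖ ≤ ε / 200 * ‖T‖ :=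
    eventually_atTop.1 (Real.isLittleO_log_id_atTop.def (by positivity : 0 < ε / 200))
  refine ⟨max (max (max k1 k2) (max k3 k4)) (max k5 400), δ, max (max (max T1 T3) T4) (max (max T5 T6) 10), hδ,
    (le_max_right _ _).trans (le_max_right _ _), ?_⟩
  intro T hT k hk hkδ
  simp only [max_le_iff] at hT hk
  obtain ⟨⟨⟨hT1', hT3'⟩, hT4'⟩, ⟨hT5', hT6'⟩, hT10⟩ := hT
  obtain ⟨⟨⟨hk1, hk2⟩, hk3, hk4'⟩, hk5', hk400⟩ := hk
  have hT0 : 0 < T := by linarith
  have hL := hT4 T hT4'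
  have hLJ : 0 < 800 * (J + 1) / ε := by positivity
  have hLT : Real.log T ≤ ε / 200 * T := by
    have := hT6 T hT6'
    rw [Real.norm_eq_abs, Real.norm_eq_abs, abs_of_nonneg (by linarith), abs_of_pos hT0] at this
    exact this
  have hkR : (400:ℝ) ≤ k := by exact_mod_cast hk400
  have hKk0 : max (max K K5) (J / ε) ≤ k := hk5.trans (by exact_mod_cast hk5')
  have hKk : K ≤ k := ((le_max_left _ _).trans (le_max_left _ _)).trans hKk0
  have hK5k : K5 ≤ k := ((le_max_right _ _).trans (le_max_left _ _)).trans hKk0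
  have hJk : J / ε ≤ k := (le_max_right _ _).trans hKk0
  obtain ⟨l1, l2⟩ := lamT_log hT0
  have hlam : 0 < lamT T := by linarith
  have hlam4 : Real.log T / 4 ≤ lamT T := by linarith
  obtain ⟨r, hr⟩ : ∃ r : ℝ, r = k / lamT T := ⟨_, rfl⟩
  have hr0 : 0 < r := by rw [hr]; positivity
  have hr4 : r ≤ 4 * δ := by
    rw [hr, div_le_iff₀ hlam]
    linarith [mul_le_mul_of_nonneg_left hlam4 hδ.le]
  have hkrL : (k:ℝ) ≤ r * Real.log T := by
    have : (k:ℝ) * 1 ≤ r * Real.log T := by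
      rw [hr, div_mul_eq_mul_div, le_div_iff₀ hlam]
      linarith [mul_le_mul_of_nonneg_left (show lamT T ≤ Real.log T by linarith) (show (0:ℝ) ≤ k by linarith)]
    linarith
  have hNr : N * r ≤ 1 := (mul_le_mul_of_nonneg_left hr4 hN0.le).trans d5
  have hr1 : r ≤ 1 / 100 := by linarith
  have hvr : v * r + 3 * r ≤ 1 := by
    have := mul_le_mul_of_nonneg_right hN hr0.le
    linarith
  have hvr0 : 0 < v * r := mul_pos hv hr0
  have h300 : 300 * (k : ℝ) + 300 ≤ Real.log T := by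
    linarith [mul_le_mul_of_nonneg_right d4 (show 0 ≤ Real.log T by linarith)]
  obtain ⟨B1, hB1, hB1v, hg⟩ := hgd T hT1' r hr0 (by linarith) (by linarith)
  obtain ⟨B2, hB2, hB2v, hl⟩ := hlg T hT3' k hk3 h300
  obtain ⟨hxm, hxi⟩ := hxx T hT5' r hr0 (by linarith) (by linarith)
  have hB2v' : volume B2 ≤ ENNReal.ofReal (ε / 16 * T) :=
    hB2v.trans (ENNReal.ofReal_le_ofReal (mul_le_mul_of_nonneg_right (hk4 k hk4') hT0.le))
  rw [← hr]
  obtain ⟨W, hW1, hW2⟩ : ∃ W : ℂ, ‖W‖ = 1 ∧ (AA k ≠ 0 → W = wk k * AA k / ((‖AA k‖ : ℝ) : ℂ)) := by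
    by_cases h : AA k = 0
    · exact ⟨1, norm_one, fun h' => absurd h h'⟩
    · refine ⟨wk k * AA k / ((‖AA k‖ : ℝ) : ℂ), ?_, fun _ => rfl⟩
      rw [norm_div, norm_mul, wk_norm, one_mul, Complex.norm_real, norm_norm, div_self (norm_ne_zero_iff.2 h)]
  -- the points
  have pt : ∀ t : ℝ, T ≤ t → t ≤ 2 * T → t ∉ B1 → t ∉ B2 → ∀ x : ℝ, |x - t| ≤ 15 / lamT T →
      ‖deriv (FT Ph) ((x : ℂ) - I * r) / FT Ph ((x : ℂ) - I * r) - I * (lamT T : ℂ)‖ ≤ ε * lamT T ∧
      (iteratedDeriv k (FT Ph) x = 0 → |(W * FT Ph ((x : ℂ) - I * r)).re| ≤ ε * ‖FT Ph ((x : ℂ) - I * r)‖) ∧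
      (|x - t| ≤ 10 / lamT T → ∃ y : ℝ, x - (1 + ε) * (Real.pi / lamT T) ≤ y ∧ y ≤ x ∧ iteratedDeriv k (FT Ph) y = 0) := by
    intro t ht1 ht2 htB1 htB2 x hx
    obtain ⟨g1, g2⟩ := hg t ht1 ht2 htB1
    obtain ⟨T', t1, t2, g3⟩ := hl t ht1 ht2 htB2
    obtain ⟨m1, m2⟩ := lamT_two (by linarith) t1 t2
    obtain ⟨lam', hlam'⟩ : ∃ lam' : ℝ, lam' = lamT T' := ⟨_, rfl⟩
    rw [← hlam'] at m1 m2 g3
    have hlam'0 : 0 < lam' := by linarith
    have hr'r : (k:ℝ) / lam' ≤ r := by rw [hr]; exact div_le_div_of_nonneg_left (by linarith) hlam m1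
    have hr'0 : 0 < (k:ℝ) / lam' := by positivity
    have hrr : (r - k / lam') / r ≤ 7 / 20 / lamT T := by
      have e : (r - k / lam') / r = (lam' - lamT T) / lam' := by
        rw [hr]
        field_simp
      rw [e]
      calc (lam' - lamT T) / lam' ≤ (7 / 20) / lam' := by
            apply div_le_div_of_nonneg_right _ hlam'0.le
            linarith
        _ ≤ 7 / 20 / lamT T := div_le_div_of_nonneg_left (by norm_num) hlam m1
    have hlam100 : 100 ≤ lamT T := by linarith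
    have hrr2 : r - k / lam' ≤ r / 100 := by
      have h1 : (7:ℝ) / 20 / lamT T ≤ 1 / 100 := by
        rw [div_le_iff₀ hlam]
        linarith
      have h2 := hrr.trans h1
      rw [div_le_iff₀ hr0] at h2
      linarith
    have hk100 : (k:ℝ) / lam' ≤ 1 / 100 := by linarith
    have hJlam : 7 / 20 / lamT T * (5 * J) ≤ ε / 8 := by
      rw [div_mul_eq_mul_div, div_le_iff₀ hlam]
      have h1 : 400 * (J + 1) / ε ≤ lamT T + 1 := by
        have e : 800 * (J + 1) / ε = 2 * (400 * (J + 1) / ε) := by ring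
        rw [e] at hL
        linarith
      have h2 : ε * (400 * (J + 1) / ε) = 400 * (J + 1) := by field_simp
      have h3 := mul_le_mul_of_nonneg_left h1 hε.le
      rw [h2] at h3
      linarith
    have h15r : 15 / lamT T ≤ r / 4 := by
      rw [hr, div_div, div_le_div_iff₀ hlam (by positivity)]
      linarith [mul_le_mul_of_nonneg_right (show (60:ℝ) ≤ k by linarith) hlam.le]
    have hball : ∀ s : ℝ, |s - r| ≤ r / 100 → ‖((x : ℂ) - I * s) - ((t : ℂ) - I * r)‖ ≤ r / 2 := by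
      intro s hs
      have e : ((x : ℂ) - I * s) - ((t : ℂ) - I * r) = ((x - t : ℝ) : ℂ) + I * ((r - s : ℝ) : ℂ) := by
        push_cast
        ring
      rw [e]
      refine (norm_add_le _ _).trans ?_
      rw [norm_mul, norm_I, one_mul, Complex.norm_real, Complex.norm_real, Real.norm_eq_abs, Real.norm_eq_abs, abs_sub_comm r s]
      linarith
    refine ⟨?_, fun hzero => ?_, fun hx10 => ?_⟩
    · -- log
      refine (g1 _ (hball r (by simp; positivity))).2.trans ?_
      rw [hr, div_div_eq_mul_div, div_le_iff₀ (by linarith)]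
      rw [div_le_iff₀ hε] at hJk
      have := mul_le_mul_of_nonneg_right hJk hlam.le
      linarith
    · -- zero
      have hw : 15 / lamT T ≤ 20 / lam' := by
        rw [div_le_div_iff₀ hlam hlam'0]
        linarith
      obtain ⟨hAA, hz⟩ := hre (FT Ph) ker_Ph.FT_diff loc_R.conj k hk1 lam' t hlam'0 hk100
        (Pool.Agent.H487.ED.LGd_mono hlam'0 g3 (min_le_left _ _)) (fun z hz => by
          have h1 : ‖z - ((t : ℂ) - I * r)‖ ≤ r / 2 := by
            have e : z - ((t : ℂ) - I * r) = (z - ((t : ℂ) - I * ((k / lam' : ℝ) : ℂ))) + I * ((r - k / lam' : ℝ) : ℂ) := by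
              push_cast
              ring
            rw [e]
            refine (norm_add_le _ _).trans ?_
            rw [norm_mul, norm_I, one_mul, Complex.norm_real, Real.norm_eq_abs, abs_of_nonneg (by linarith)]
            linarith
          obtain ⟨h2, h3⟩ := g1 z h1
          refine ⟨h2, ?_⟩
          have e : deriv (FT Ph) z / FT Ph z - I * (lam' : ℂ) = (deriv (FT Ph) z / FT Ph z - I * (lamT T : ℂ)) + I * ((lamT T - lam' : ℝ) : ℂ) := by
            push_cast
            ring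
          rw [e]
          refine (norm_add_le _ _).trans ?_
          rw [norm_mul, norm_I, one_mul, Complex.norm_real, Real.norm_eq_abs, abs_sub_comm, abs_of_nonneg (by linarith)]
          have h4 : J / r ≤ J * (lam' / k) := by
            rw [hr, div_div_eq_mul_div, mul_div_assoc]
            apply mul_le_mul_of_nonneg_left _ hJ.le
            exact div_le_div_of_nonneg_right m1 (by linarith)
          have h5 : lam' - lamT T ≤ 1 * (lam' / k) := by
            rw [one_mul, le_div_iff₀ (by linarith)]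
            have : (k:ℝ) ≤ lamT T / 100 := by
              have h6 : (k:ℝ) = r * lamT T := by rw [hr]; field_simp
              rw [h6]
              linarith [mul_le_mul_of_nonneg_right (show r ≤ 1 / 100 by linarith) hlam.le]
            linarith [mul_le_mul_of_nonneg_right (show lam' - lamT T ≤ 7 / 20 by linarith) (show (0:ℝ) ≤ k by linarith)]
          refine (add_le_add h3 le_rfl).trans ?_
          calc J / r + (lam' - lamT T) ≤ J * (lam' / k) + 1 * (lam' / k) := add_le_add h4 h5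
            _ = (J + 1) * (lam' / k) := by ring)
      have h1 := hz x (hx.trans hw) hzero
      have hAn : 0 < ‖AA k‖ := norm_pos_iff.2 hAA
      have h2 : |(W * FT Ph ((x : ℂ) - I * ((k / lam' : ℝ) : ℂ))).re| ≤ ε / 8 * ‖FT Ph ((x : ℂ) - I * ((k / lam' : ℝ) : ℂ))‖ := by
        have e : W * FT Ph ((x : ℂ) - I * ((k / lam' : ℝ) : ℂ)) =
            (((‖AA k‖)⁻¹ : ℝ) : ℂ) * (wk k * AA k * FT Ph ((x : ℂ) - I * ((k / lam' : ℝ) : ℂ))) := by
          rw [hW2 hAA, ofReal_inv]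
          ring
        rw [e, re_ofReal_mul, abs_mul, abs_of_pos (inv_pos.2 hAn)]
        calc (‖AA k‖)⁻¹ * |(wk k * AA k * FT Ph ((x : ℂ) - I * ((k / lam' : ℝ) : ℂ))).re|
            ≤ (‖AA k‖)⁻¹ * (ε / 8 * (‖AA k‖ * ‖FT Ph ((x : ℂ) - I * ((k / lam' : ℝ) : ℂ))‖)) :=
              mul_le_mul_of_nonneg_left h1 (inv_pos.2 hAn).le
          _ = ε / 8 * ‖FT Ph ((x : ℂ) - I * ((k / lam' : ℝ) : ℂ))‖ := by
              field_simp
      have h3 := vert ker_Ph.FT_diff (x := x) (r := r) (r' := k / lam') (lam := lamT T) (M := J / r) (e := ε / 8) W hW1 hr'r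
        (by positivity) (by
          have e : J / r * (r - k / lam') = (r - k / lam') / r * J := by
            field_simp
          rw [e]
          have := mul_le_mul_of_nonneg_right hrr hJ.le
          have h7 : 0 ≤ 7 / 20 / lamT T * J := by positivity
          linarith) (by linarith) (by positivity)
        (fun s hs1 hs2 => g1 _ (hball s (by rw [abs_sub_comm, abs_of_nonneg (by linarith)]; linarith))) h2
      refine h3.trans ?_
      apply mul_le_mul_of_nonneg_right _ (norm_nonneg _)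
      linarith
    · -- existence
      obtain ⟨s1, _⟩ := hsp (FT Ph) ker_Ph.FT_diff loc_R.conj k hk2 lam' t hlam'0 hk100
        (Pool.Agent.H487.ED.LGd_mono hlam'0 g3 (min_le_right _ _))
      have hpi := Real.pi_pos
      have hpi4 := Real.pi_lt_four
      have h10 : 10 / lamT T ≤ 11 / lam' := by
        rw [div_le_div_iff₀ hlam hlam'0]
        linarith
      have h11 : 11 / lam' + (1 + ε) * (Real.pi / lam') ≤ k / lam' / 16 := by
        have h3 : (1 + ε) * Real.pi ≤ 2 * 4 := mul_le_mul (by linarith) hpi4.le hpi.le (by norm_num)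
        rw [mul_div_assoc', ← add_div, div_div, div_le_div_iff₀ hlam'0 (by positivity)]
        have h4 : (11 + (1 + ε) * Real.pi) * 16 ≤ k := by linarith
        linarith [mul_le_mul_of_nonneg_right h4 hlam'0.le]
      have hpos : 0 ≤ (1 + ε) * (Real.pi / lam') := by positivity
      rw [abs_le] at hx10
      obtain ⟨y, hy1, hy2, hy3⟩ := s1 (x - (1 + ε) * (Real.pi / lam')) x (by linarith [hx10.1]) (by linarith [hx10.2]) (by linarith)
      refine ⟨y, ?_, hy2, hy3⟩
      have h1 : (1 + ε) * (Real.pi / lam') ≤ (1 + ε) * (Real.pi / lamT T) :=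
        mul_le_mul_of_nonneg_left (div_le_div_of_nonneg_left hpi.le hlam m1) (by linarith)
      linarith
  -- the exceptional set
  obtain ⟨S, hS⟩ : ∃ S : Set ℝ, S = Icc (T + 3 * Real.log T) (2 * T - 3 * Real.log T - 1) := ⟨_, rfl⟩
  have hSm : MeasurableSet S := by rw [hS]; exact measurableSet_Icc
  rw [← hS] at hxm hxi
  obtain ⟨A, hA⟩ : ∃ A : Set ℝ, A = {t : ℝ | ENNReal.ofReal ε ≤ ENNReal.ofReal |XX v T r t - XF (Gv v r) T t|} := ⟨_, rfl⟩
  have hAv : volume.restrict S A ≤ ENNReal.ofReal (ε / 16 * T) := by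
    have hm' : AEMeasurable (fun t => ENNReal.ofReal |XX v T r t - XF (Gv v r) T t|) (volume.restrict S) := by
      simpa using hxm.norm.ennreal_ofReal
    have h1 := meas_ge_le_lintegral_div hm' (ε := ENNReal.ofReal ε) (by simpa using hε) ENNReal.ofReal_ne_top
    rw [← hA] at h1
    refine h1.trans ((ENNReal.div_le_div_right hxi _).trans (le_of_eq ?_))
    rw [← ENNReal.ofReal_div_of_pos hε]
    congr 1
    field_simp
  obtain ⟨B3, hB3⟩ : ∃ B3 : Set ℝ, B3 = toMeasurable (volume.restrict S) A ∩ S := ⟨_, rfl⟩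
  have hB3m : MeasurableSet B3 := by rw [hB3]; exact (measurableSet_toMeasurable _ _).inter hSm
  have hB3v : volume B3 ≤ ENNReal.ofReal (ε / 16 * T) := by
    rw [hB3, ← Measure.restrict_apply (measurableSet_toMeasurable _ _), measure_toMeasurable]
    exact hAv
  obtain ⟨U, hU⟩ : ∃ U : Set ℝ, U = ⋃ j ∈ Finset.range (N + 1), (fun t : ℝ => t + ((j : ℝ) - 1) * r) ⁻¹' B1 := ⟨_, rfl⟩
  have hUm : MeasurableSet U := by
    rw [hU]
    exact Finset.measurableSet_biUnion _ fun j _ => (measurable_add_const _) hB1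
  have hUv : volume U ≤ ENNReal.ofReal (((N + 1 : ℕ) : ℝ) * (e0 * T)) := by
    rw [hU]
    refine (measure_biUnion_finset_le _ _).trans ?_
    have h1 : ∑ j ∈ Finset.range (N + 1), volume ((fun t : ℝ => t + ((j : ℝ) - 1) * r) ⁻¹' B1) ≤
        ∑ _j ∈ Finset.range (N + 1), ENNReal.ofReal (e0 * T) := by
      refine Finset.sum_le_sum fun j _ => ?_
      rw [measure_preimage_add_right]
      exact hB1v
    refine h1.trans (le_of_eq ?_)
    rw [Finset.sum_const, Finset.card_range, nsmul_eq_mul, ENNReal.ofReal_mul (Nat.cast_nonneg _), ENNReal.ofReal_natCast]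
  have hV1 : volume ((fun t : ℝ => t + v * r) ⁻¹' B1) ≤ ENNReal.ofReal (e0 * T) := by
    rw [measure_preimage_add_right]; exact hB1v
  have hV2 : volume ((fun t : ℝ => t + v * r) ⁻¹' B2) ≤ ENNReal.ofReal (ε / 16 * T) := by
    rw [measure_preimage_add_right]; exact hB2v'
  obtain ⟨E, hE⟩ : ∃ E : Set ℝ, E = Icc T (T + 3 * Real.log T + 1) ∪ Icc (2 * T - 3 * Real.log T - 1) (2 * T) := ⟨_, rfl⟩
  have hEv : volume E ≤ ENNReal.ofReal (ε / 16 * T) := by
    rw [hE]
    have h1 := mu (a := 3 * Real.log T + 1) (b := 3 * Real.log T + 1) (by linarith) (by linarith)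
      (show volume (Icc T (T + 3 * Real.log T + 1)) ≤ ENNReal.ofReal (3 * Real.log T + 1) by
        rw [Real.volume_Icc]; apply ENNReal.ofReal_le_ofReal; linarith)
      (show volume (Icc (2 * T - 3 * Real.log T - 1) (2 * T)) ≤ ENNReal.ofReal (3 * Real.log T + 1) by
        rw [Real.volume_Icc]; apply ENNReal.ofReal_le_ofReal; linarith)
    refine h1.trans (ENNReal.ofReal_le_ofReal ?_)
    have : 0 < ε * T := mul_pos hε hT0
    linarith
  have hEm : MeasurableSet E := by rw [hE]; exact measurableSet_Icc.union measurableSet_Icc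
  have p0 : 0 ≤ e0 * T := by positivity
  have p1 : 0 ≤ ε / 16 * T := by positivity
  have p2 : 0 ≤ ((N + 1 : ℕ) : ℝ) * (e0 * T) := by positivity
  refine ⟨W, hW1, (U ∪ (fun t : ℝ => t + v * r) ⁻¹' B1) ∪ (B2 ∪ (fun t : ℝ => t + v * r) ⁻¹' B2) ∪ (B3 ∪ E),
    ((hUm.union ((measurable_add_const _) hB1)).union (hB2.union ((measurable_add_const _) hB2))).union (hB3m.union hEm), ?_, ?_⟩
  · have q := mu (by positivity) (by positivity) (mu (by positivity) (by positivity) (mu p2 p0 hUv hV1) (mu p1 p1 hB2v' hV2))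
      (mu p1 p1 hB3v hEv)
    refine q.trans (ENNReal.ofReal_le_ofReal ?_)
    have h1 := mul_le_mul_of_nonneg_right he0N hT0.le
    push_cast
    have : 0 < ε * T := mul_pos hε hT0
    linarith
  · intro t ht1 ht2 htB
    simp only [Set.mem_union, not_or] at htB
    obtain ⟨⟨⟨hU', hV1'⟩, hB2', hV2'⟩, hB3', hE'⟩ := htB
    have hV1'' : t + v * r ∉ B1 := hV1'
    have hV2'' : t + v * r ∉ B2 := hV2'
    rw [hE, Set.mem_union, not_or] at hE'
    have hlo : T + 3 * Real.log T + 1 < t := by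
      by_contra hcon
      exact hE'.1 ⟨ht1, not_lt.1 hcon⟩
    have hhi : t < 2 * T - 3 * Real.log T - 1 := by
      by_contra hcon
      exact hE'.2 ⟨not_lt.1 hcon, ht2⟩
    have hUj : ∀ j : ℕ, j ≤ N → t + ((j : ℝ) - 1) * r ∉ B1 := by
      intro j hj hmem
      apply hU'
      rw [hU]
      exact Set.mem_biUnion (Finset.mem_coe.2 (Finset.mem_range.2 (by omega))) hmem
    have hN1 : 1 ≤ N := by
      have : (1:ℝ) ≤ N := by linarith
      exact_mod_cast this
    have htB1 : t ∉ B1 := by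
      have := hUj 1 hN1
      simpa using this
    have q1 := pt t ht1 ht2 htB1 hB2'
    have q2 := pt (t + v * r) (by linarith) (by linarith) hV1'' hV2''
    refine ⟨fun s hs1 hs2 => ?_, fun x hx => ?_, fun x hx hz => ?_, fun p hp => ?_, ?_⟩
    · -- free
      have hx1 : -1 ≤ (s - t) / r := by rw [le_div_iff₀ hr0]; linarith
      have hx2 : (s - t) / r ≤ v + 1 := by rw [div_le_iff₀ hr0]; linarith
      have hround := abs_sub_round ((s - t) / r)
      rw [abs_le] at hround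
      obtain ⟨n, hn⟩ : ∃ n : ℤ, n = round ((s - t) / r) := ⟨_, rfl⟩
      rw [← hn] at hround
      have hn1 : (-2 : ℝ) < n := by linarith [hround.2]
      have hn2 : (n : ℝ) ≤ v + 3 / 2 := by linarith [hround.1]
      have hn1' : -2 < n := by exact_mod_cast hn1
      obtain ⟨j, hj⟩ : ∃ j : ℕ, (j : ℤ) = n + 1 := ⟨(n + 1).toNat, Int.toNat_of_nonneg (by omega)⟩
      have hjR : (j : ℝ) = n + 1 := by exact_mod_cast hj
      have hjN : j ≤ N := by
        have : (j : ℝ) ≤ N := by linarith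
        exact_mod_cast this
      have hjB := hUj j hjN
      have ej : t + ((j : ℝ) - 1) * r = t + n * r := by rw [hjR]; ring
      rw [ej] at hjB
      have hnr1 : -(2 * r) ≤ n * r := by
        have := mul_le_mul_of_nonneg_right hn1.le hr0.le
        linarith
      have hnr2 : n * r ≤ v * r + 3 / 2 * r := by
        have := mul_le_mul_of_nonneg_right hn2 hr0.le
        linarith
      obtain ⟨g1, _⟩ := hg (t + n * r) (by linarith) (by linarith) hjB
      refine (g1 ((s : ℂ) - I * r) ?_).1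
      have e : ((s : ℂ) - I * r) - (((t + n * r : ℝ) : ℂ) - I * r) = ((s - (t + n * r) : ℝ) : ℂ) := by
        push_cast
        ring
      rw [e, Complex.norm_real, Real.norm_eq_abs]
      have e2 : s - (t + n * r) = ((s - t) / r - n) * r := by
        field_simp
        ring
      rw [e2, abs_mul, abs_of_pos hr0]
      have h3 : |(s - t) / r - n| ≤ 1 / 2 := by rw [abs_le]; exact ⟨by linarith [hround.1], by linarith [hround.2]⟩
      have := mul_le_mul_of_nonneg_right h3 hr0.le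
      linarith
    · rcases hx with hx | hx
      · exact (q1 x hx).1
      · exact (q2 x hx).1
    · rcases hx with hx | hx
      · exact (q1 x hx).2.1 hz
      · exact (q2 x hx).2.1 hz
    · have h15 : 10 / lamT T ≤ 15 / lamT T := div_le_div_of_nonneg_right (by norm_num) hlam.le
      exact (q2 p (hp.trans h15)).2.2 hp
    · -- app
      have htS : t ∈ S := by
        rw [hS]
        exact ⟨by linarith, by linarith⟩
      by_contra hcon
      apply hB3'
      rw [hB3]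
      refine ⟨subset_toMeasurable _ _ ?_, htS⟩
      rw [hA]
      exact ENNReal.ofReal_le_ofReal (not_le.1 hcon).le

end Pool.Agent.H664.GP
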